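import Mathlib

/-!
# Deterministic partially blind versus general counter machines under constant reversals
-/

set_option autoImplicit false

namespace Pool.Agent.Results.MP_24384b_lc.BlindCounters

/-- A (nondeterministic) one-way multicounter machine over the input alphabet `A`. The moves
available in state `q` depend on the scanned symbol (`some a`, or `none` when the input is
exhausted, i.e. at a right end marker) and on the zero pattern of the counters (`true` at `i` iff
counter `i` is zero). A move consists of the new state, of a truth value telling whether the head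
moves one cell to the right (otherwise it stays), and of the changes `-1, 0, 1` of the counters. -/
structure Machine (A : Type) where
  /-- the number of counters -/
  k : ℕ
  /-- the states -/
  Q : Type
  finQ : Finite Q
  start : Q
  final : Set Q
  move : Q → Option A → (Fin k → Bool) → Set (Q × Bool × (Fin k → SignType))

variable {A : Type}

/-- A configuration: the state, the part of the input from the scanned cell on, the counters. -/
structure Config (M : Machine A) where
  st : M.Q
  rem : List A
  cnt : Fin M.k → ℕ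

/-- the initial configuration on the input `w` -/
def init (M : Machine A) (w : List A) : Config M := ⟨M.start, w, fun _ => 0⟩

/-- The move `m` is possible in the configuration `C` and leads to the configuration `C'`. A head
moving to the right needs a scanned input symbol, and no counter may become negative. -/
def Leads (M : Machine A) (C : Config M) (m : M.Q × Bool × (Fin M.k → SignType))
    (C' : Config M) : Prop :=
  m ∈ M.move C.st C.rem.head? (fun i => decide (C.cnt i = 0)) ∧ C'.st = m.1 ∧
    (if m.2.1 = true then ∃ a, C.rem = a :: C'.rem else C'.rem = C.rem) ∧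
    ∀ i, (C'.cnt i : ℤ) = C.cnt i + (m.2.2 i : ℤ)

/-- The computations, with the list of the changes of the counters in the single steps. -/
inductive Run (M : Machine A) : Config M → List (Fin M.k → SignType) → Config M → Prop
  | nil (C : Config M) : Run M C [] C
  | cons {C C' C'' : Config M} {m : M.Q × Bool × (Fin M.k → SignType)}
      {l : List (Fin M.k → SignType)} : Leads M C m C' → Run M C' l C'' →
      Run M C (m.2.2 :: l) C''

/-- In every configuration at most one move is possible. -/
def Deterministic (M : Machine A) : Prop :=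
  ∀ C m m' C' C'', Leads M C m C' → Leads M C m' C'' → m = m'

/-- There is a constant `d` such that every stretch of any computation (starting from the initial
configuration on some input) during which the head stays on the same cell has length at most
`d`. -/
def QuasiRealtime (M : Machine A) : Prop :=
  ∃ d : ℕ, ∀ (w : List A) (l l' : List (Fin M.k → SignType)) (C C' : Config M),
    Run M (init M w) l C → Run M C l' C' → C'.rem = C.rem → l'.length ≤ d

/-- The moves do not depend on whether counters are zero. -/
def PartiallyBlind (M : Machine A) : Prop :=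
  ∀ q s z z', M.move q s z = M.move q s z'

/-- the number of positions where a list of signs changes -/
def changes : List SignType → ℕ
  | [] => 0
  | [_] => 0
  | a :: b :: l => (if a = b then 0 else 1) + changes (b :: l)

/-- The number of reversals of a counter, for the list of its changes: the number of changes from
increasing to decreasing or from decreasing to increasing. -/
def revs (l : List SignType) : ℕ := changes (l.filter (· ≠ 0))

/-- `L_{Rc}(M)`: the words with a computation with at most `c` reversals (of all counters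
together) that enters a final state with all counters zero after having read the whole word. -/
def LR (c : ℕ) (M : Machine A) : Language A :=
  {w | ∃ l C, Run M (init M w) l C ∧ C.rem = [] ∧ C.st ∈ M.final ∧ (∀ i, C.cnt i = 0) ∧
    ∑ i, revs (l.map (· i)) ≤ c}

/-- The class `𝓛_{Rc}(QR-DCOUNTER)` of languages over `A`. -/
def QRDCounter (A : Type) (c : ℕ) : Set (Language A) :=
  {L | ∃ M : Machine A, Deterministic M ∧ QuasiRealtime M ∧ L = LR c M}

/-- The class `𝓛_{Rc}(QR-DPBLIND)` of languages over `A`. -/
def QRDPBlind (A : Type) (c : ℕ) : Set (Language A) :=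
  {L | ∃ M : Machine A, Deterministic M ∧ QuasiRealtime M ∧ PartiallyBlind M ∧ L = LR c M}

/-- In every step the head reads an input symbol and moves to the right; in particular there is no
move once the input is exhausted. -/
def Realtime (M : Machine A) : Prop :=
  (∀ q s z, ∀ m ∈ M.move q s z, m.2.1 = true) ∧ ∀ q z, M.move q none z = ∅

/-- the language `{a^n b^m : n ≤ m}` -/
def L0 : Language Bool := {w | ∃ n m, n ≤ m ∧ w = List.replicate n false ++ List.replicate m true}

/-! ### Reversals -/

theorem changes_append (l1 l2 : List SignType) : changes l1 + changes l2 ≤ changes (l1 ++ l2) := by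
  induction l1 with
  | nil => simp [changes]
  | cons a l ih =>
    rcases l with _ | ⟨b, l⟩
    · rcases l2 with _ | ⟨b, l2⟩
      · simp [changes]
      · simp [changes]
    · simp only [List.cons_append, changes] at ih ⊢
      omega

theorem revs_append (l1 l2 : List SignType) : revs l1 + revs l2 ≤ revs (l1 ++ l2) := by
  unfold revs
  rw [List.filter_append]
  exact changes_append _ _

theorem changes_eq_zero {l : List SignType} (h : changes l = 0) : ∃ a, ∀ x ∈ l, x = a := by
  induction l with
  | nil => exact ⟨0, by simp⟩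
  | cons a l ih =>
    rcases l with _ | ⟨b, l⟩
    · exact ⟨a, by simp⟩
    · simp only [changes, Nat.add_eq_zero_iff] at h
      obtain ⟨c, hc⟩ := ih h.2
      refine ⟨c, ?_⟩
      intro x hx
      rcases List.mem_cons.1 hx with rfl | hx
      · have h1 : x = b := by
          by_contra hne
          simp [hne] at h
        rw [h1]
        exact hc b (by simp)
      · exact hc x hx

theorem revs_eq_zero {l : List SignType} (h : revs l = 0) :
    (∀ x ∈ l, x ≠ 1) ∨ (∀ x ∈ l, x ≠ -1) := by
  obtain ⟨a, ha⟩ := changes_eq_zero h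
  by_cases h1 : a = 1
  · right
    intro x hx hx1
    have := ha x (by rw [List.mem_filter]; exact ⟨hx, by rw [hx1]; decide⟩)
    rw [hx1, h1] at this
    exact absurd this (by decide)
  · left
    intro x hx hx1
    have := ha x (by rw [List.mem_filter]; exact ⟨hx, by rw [hx1]; decide⟩)
    exact h1 (by rw [← this, hx1])

theorem revs_range_le (f : ℕ → SignType) (n m : ℕ) :
    revs ((List.range n).map f) + revs ((List.range m).map fun j => f (n + j)) ≤
      revs ((List.range (n + m)).map f) := by
  rw [List.range_add, List.map_append, List.map_map]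
  exact revs_append _ _

theorem cast_abs (s : SignType) : -1 ≤ (s : ℤ) ∧ (s : ℤ) ≤ 1 := by
  cases s <;> decide

theorem sum_bound (f : ℕ → SignType) (n : ℕ) :
    -(n : ℤ) ≤ ∑ j ∈ Finset.range n, (f j : ℤ) ∧ ∑ j ∈ Finset.range n, (f j : ℤ) ≤ n := by
  induction n with
  | zero => simp
  | succ n ih =>
    rw [Finset.sum_range_succ]
    have := cast_abs (f n)
    push_cast
    constructor <;> omega

/-- the key fact on a single counter -/
theorem key (f : ℕ → SignType) (t1 ℓ T : ℕ) (hℓ : 0 < ℓ) (hT : t1 ≤ T)
    (hper : ∀ j, f (t1 + (j + ℓ)) = f (t1 + j)) (v0 V d : ℤ) (hv0 : v0 ≤ V)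
    (hpos : ∀ t ≤ T, 0 ≤ v0 + ∑ j ∈ Finset.range t, (f j : ℤ))
    (hend : v0 + ∑ j ∈ Finset.range T, (f j : ℤ) ≤ d) (c : ℕ)
    (hc : revs ((List.range T).map f) ≤ c) (N : ℕ) (hN : N = (T - t1) / ℓ)
    (hN1 : V + t1 < N) (hN2 : ℓ + d < N) (hN3 : c < N) : ∀ j, f (t1 + j) = 0 := by
  obtain ⟨r, hr, hTr⟩ : ∃ r < ℓ, T = t1 + N * ℓ + r := by
    refine ⟨(T - t1) % ℓ, Nat.mod_lt _ hℓ, ?_⟩
    have := Nat.div_add_mod' (T - t1) ℓ
    rw [hN]
    omega
  have hper' : ∀ n j, f (t1 + (j + n * ℓ)) = f (t1 + j) := by
    intro n
    induction n with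
    | zero => intro j; simp
    | succ n ih =>
      intro j
      rw [Nat.succ_mul, ← Nat.add_assoc j, hper, ih]
  have hE : ∀ n, ∑ j ∈ Finset.range (t1 + n * ℓ), (f j : ℤ) =
      ∑ j ∈ Finset.range t1, (f j : ℤ) + n * ∑ j ∈ Finset.range ℓ, (f (t1 + j) : ℤ) := by
    intro n
    induction n with
    | zero => simp
    | succ n ih =>
      rw [Nat.succ_mul, ← Nat.add_assoc, Finset.sum_range_add, ih]
      have : ∀ j, f (t1 + n * ℓ + j) = f (t1 + j) := by
        intro j
        rw [← hper' n j]
        congr 1
        ring
      simp only [this]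
      push_cast
      ring
  have hS := sum_bound f t1
  have hp1 := hpos t1 hT
  rcases lt_trichotomy (∑ j ∈ Finset.range ℓ, (f (t1 + j) : ℤ)) 0 with h | h | h
  · have h1 := hpos (t1 + N * ℓ) (by omega)
    rw [hE] at h1
    have h2 : (N : ℤ) * ∑ j ∈ Finset.range ℓ, (f (t1 + j) : ℤ) ≤ N * (-1) :=
      mul_le_mul_of_nonneg_left (by omega) (by positivity)
    omega
  · by_contra hne
    push Not at hne
    obtain ⟨j0, hj0⟩ := hne
    have hj1 : ∃ j < ℓ, f (t1 + j) ≠ 0 := by
      refine ⟨j0 % ℓ, Nat.mod_lt _ hℓ, ?_⟩
      rw [← hper' (j0 / ℓ) (j0 % ℓ), Nat.mod_add_div']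
      exact hj0
    have hblock : 1 ≤ revs ((List.range ℓ).map fun j => f (t1 + j)) := by
      by_contra hlt
      obtain ⟨j, hj, hjne⟩ := hj1
      rcases revs_eq_zero (by omega : revs ((List.range ℓ).map fun j => f (t1 + j)) = 0) with
        h1 | h1
      · have h2 : ∀ i ∈ Finset.range ℓ, (f (t1 + i) : ℤ) ≤ 0 := by
          intro i hi
          have h3 := h1 (f (t1 + i)) (List.mem_map.2 ⟨i, List.mem_range.2 (Finset.mem_range.1 hi),
            rfl⟩)
          revert h3
          cases f (t1 + i) <;> decide
        have h4 := (Finset.sum_eq_zero_iff_of_nonpos h2).1 h j (Finset.mem_range.2 hj)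
        revert h4 hjne
        cases f (t1 + j) <;> decide
      · have h2 : ∀ i ∈ Finset.range ℓ, 0 ≤ (f (t1 + i) : ℤ) := by
          intro i hi
          have h3 := h1 (f (t1 + i)) (List.mem_map.2 ⟨i, List.mem_range.2 (Finset.mem_range.1 hi),
            rfl⟩)
          revert h3
          cases f (t1 + i) <;> decide
        have h4 := (Finset.sum_eq_zero_iff_of_nonneg h2).1 h j (Finset.mem_range.2 hj)
        revert h4 hjne
        cases f (t1 + j) <;> decide
    have hrev : ∀ n, n ≤ revs ((List.range (t1 + n * ℓ)).map f) := by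
      intro n
      induction n with
      | zero => simp
      | succ n ih =>
        have h1 := revs_range_le f (t1 + n * ℓ) ℓ
        have h2 : ∀ j, f (t1 + n * ℓ + j) = f (t1 + j) := by
          intro j
          rw [← hper' n j]
          congr 1
          ring
        simp only [h2] at h1
        rw [Nat.succ_mul, ← Nat.add_assoc]
        omega
    have h1 := revs_range_le f (t1 + N * ℓ) r
    have h2 := hrev N
    rw [← hTr] at h1
    omega
  · have h1 := hE N
    have h2 : (N : ℤ) * 1 ≤ N * ∑ j ∈ Finset.range ℓ, (f (t1 + j) : ℤ) :=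
      mul_le_mul_of_nonneg_left (by omega) (by positivity)
    rw [hTr, Finset.sum_range_add, h1] at hend
    have h3 := sum_bound (fun j => f (t1 + N * ℓ + j)) r
    omega

/-! ### Computations -/

variable {M : Machine A}

theorem Run.append {C C' C'' : Config M} {l l' : List (Fin M.k → SignType)} (h : Run M C l C')
    (h' : Run M C' l' C'') : Run M C (l ++ l') C'' := by
  induction h with
  | nil => exact h'
  | cons h1 _ ih => exact .cons h1 (ih h')

theorem Run.cnt_eq {C C' : Config M} {l : List (Fin M.k → SignType)} (h : Run M C l C')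
    (i : Fin M.k) :
    (C'.cnt i : ℤ) = C.cnt i + (l.map fun δ => ((δ i : SignType) : ℤ)).sum := by
  induction h with
  | nil => simp
  | cons h1 _ ih =>
    rw [ih, h1.2.2.2 i, List.map_cons, List.sum_cons]
    ring

theorem list_sum_bound (l : List (Fin M.k → SignType)) (i : Fin M.k) :
    -(l.length : ℤ) ≤ (l.map fun δ => ((δ i : SignType) : ℤ)).sum ∧
      (l.map fun δ => ((δ i : SignType) : ℤ)).sum ≤ l.length := by
  induction l with
  | nil => simp
  | cons a l ih =>
    have := cast_abs (a i)
    rw [List.map_cons, List.sum_cons, List.length_cons]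
    push_cast
    constructor <;> omega

theorem Run.suffix {C C' : Config M} {l : List (Fin M.k → SignType)} (h : Run M C l C') :
    C'.rem <:+ C.rem := by
  induction h with
  | nil => exact List.suffix_refl _
  | cons h1 _ ih =>
    have h2 := h1.2.2.1
    split_ifs at h2
    · obtain ⟨a, ha⟩ := h2
      rw [ha]
      exact ih.trans (List.suffix_cons _ _)
    · rw [h2] at ih
      exact ih

/-- the zero pattern -/
def zp {k : ℕ} (v : Fin k → ℕ) : Fin k → Bool := fun i => decide (v i = 0)

/-- The part of a computation in which the word `u` is read. -/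
inductive Reads (M : Machine A) : M.Q → List A → (Fin M.k → ℕ) → List (Fin M.k → SignType) →
    M.Q → (Fin M.k → ℕ) → Prop
  | nil (q : M.Q) (v : Fin M.k → ℕ) : Reads M q [] v [] q v
  | stay {q q1 q' : M.Q} {a : A} {u : List A} {v v1 v' : Fin M.k → ℕ} {δ : Fin M.k → SignType}
      {l : List (Fin M.k → SignType)} : (q1, false, δ) ∈ M.move q (some a) (zp v) →
      (∀ i, (v1 i : ℤ) = v i + (δ i : ℤ)) → Reads M q1 (a :: u) v1 l q' v' →
      Reads M q (a :: u) v (δ :: l) q' v'
  | adv {q q1 q' : M.Q} {a : A} {u : List A} {v v1 v' : Fin M.k → ℕ} {δ : Fin M.k → SignType}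
      {l : List (Fin M.k → SignType)} : (q1, true, δ) ∈ M.move q (some a) (zp v) →
      (∀ i, (v1 i : ℤ) = v i + (δ i : ℤ)) → Reads M q1 u v1 l q' v' →
      Reads M q (a :: u) v (δ :: l) q' v'

theorem Reads.run {q q' : M.Q} {u : List A} {v v' : Fin M.k → ℕ} {l : List (Fin M.k → SignType)}
    (h : Reads M q u v l q' v') (y : List A) : Run M ⟨q, u ++ y, v⟩ l ⟨q', y, v'⟩ := by
  induction h with
  | nil => exact .nil _
  | stay h1 h2 _ ih =>
    exact .cons (m := (_, false, _)) (C' := ⟨_, _, _⟩) ⟨h1, rfl, by simp, h2⟩ ih
  | adv h1 h2 _ ih =>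
    exact .cons (m := (_, true, _)) (C' := ⟨_, _, _⟩) ⟨h1, rfl, by simp, h2⟩ ih

theorem Run.split {C C' : Config M} {l : List (Fin M.k → SignType)} (h : Run M C l C') :
    ∀ u y : List A, C.rem = u ++ y → C'.rem <:+ y → ∃ l1 l2 q1 v1, l = l1 ++ l2 ∧
      Reads M C.st u C.cnt l1 q1 v1 ∧ Run M ⟨q1, y, v1⟩ l2 C' := by
  induction h with
  | nil C =>
    intro u y h1 h2
    have hu : u = [] := by
      have h3 := h2.length_le
      rw [h1, List.length_append] at h3
      exact List.eq_nil_of_length_eq_zero (by omega)
    subst hu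
    rw [List.nil_append] at h1
    obtain ⟨q, r, v⟩ := C
    simp only at h1
    subst h1
    exact ⟨[], [], q, v, rfl, .nil _ _, .nil _⟩
  | @cons C C1 C2 m l h1 h2 ih =>
    intro u y h3 h4
    obtain ⟨q, r, v⟩ := C
    obtain ⟨q1, r1, v1⟩ := C1
    obtain ⟨mq, ma, mδ⟩ := m
    simp only at h3 ih
    subst h3
    rcases u with _ | ⟨a, u⟩
    · exact ⟨[], _, q, v, rfl, .nil _ _, by simpa using Run.cons h1 h2⟩
    · obtain ⟨h5, h6, h7, h8⟩ := h1
      simp only [List.cons_append, List.head?_cons] at h5 h6 h7 h8
      subst h6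
      cases ma with
      | false =>
        simp only [Bool.false_eq_true, if_false] at h7
        obtain ⟨l1, l2, q2, v2, e1, e2, e3⟩ := ih (a :: u) y (by simp [h7]) h4
        exact ⟨mδ :: l1, l2, q2, v2, by rw [e1]; rfl, .stay h5 h8 e2, e3⟩
      | true =>
        simp only [if_true] at h7
        obtain ⟨b, hb⟩ := h7
        obtain ⟨l1, l2, q2, v2, e1, e2, e3⟩ := ih u y (List.cons.inj hb).2.symm h4
        exact ⟨mδ :: l1, l2, q2, v2, by rw [e1]; rfl, .adv h5 h8 e2, e3⟩

/-- the bound for the number of steps while a word is read, in a quasi-realtime machine -/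
theorem Reads.length_le {d : ℕ} (hd : ∀ (w : List A) (l l' : List (Fin M.k → SignType))
      (C C' : Config M), Run M (init M w) l C → Run M C l' C' → C'.rem = C.rem → l'.length ≤ d)
    {q q' : M.Q} {u : List A} {v v' : Fin M.k → ℕ} {l : List (Fin M.k → SignType)}
    (h : Reads M q u v l q' v') : ∀ (y w : List A) (C0 : Config M)
      (l0 l1 : List (Fin M.k → SignType)), Run M (init M w) l0 C0 → Run M C0 l1 ⟨q, u ++ y, v⟩ →
      C0.rem = u ++ y →
      l.length ≤ u.length * (d + 1) ∧ (u ≠ [] → l1.length + l.length ≤ u.length * (d + 1)) := by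
  induction h with
  | nil =>
    intro y w C0 l0 l1 h1 h2 h3
    simp
  | @stay q q1 q' a u v v1 v' δ l h1 h2 h3 ih =>
    intro y w C0 l0 l1 h4 h5 h6
    have h7 : Run M ⟨q, a :: u ++ y, v⟩ [δ] ⟨q1, a :: u ++ y, v1⟩ :=
      .cons (m := (_, false, _)) (C' := ⟨_, _, _⟩) ⟨h1, rfl, by simp, h2⟩ (.nil _)
    have h8 := (ih y w C0 l0 (l1 ++ [δ]) h4 (h5.append h7) h6).2 (by simp)
    rw [List.length_append, List.length_singleton] at h8
    rw [List.length_cons]
    constructor
    · omega
    · intro _
      omega
  | @adv q q1 q' a u v v1 v' δ l h1 h2 h3 ih =>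
    intro y w C0 l0 l1 h4 h5 h6
    have h7 : Run M ⟨q, a :: u ++ y, v⟩ [δ] ⟨q1, u ++ y, v1⟩ :=
      .cons (m := (_, true, _)) (C' := ⟨_, _, _⟩) ⟨h1, rfl, by simp, h2⟩ (.nil _)
    have h8 := (ih y w ⟨q1, u ++ y, v1⟩ (l0 ++ l1 ++ [δ]) [] ((h4.append h5).append h7)
      (.nil _) rfl).1
    have h9 := hd w l0 l1 C0 _ h4 h5 h6.symm
    rw [List.length_cons, List.length_cons, Nat.succ_mul]
    constructor
    · omega
    · intro _
      omega

/-! ### The trajectory of a deterministic partially blind machine on a power of a letter -/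

section Trajectory

variable (M) (b : A)

open scoped Classical in
/-- the move in the state `q` when the letter `b` is scanned -/
noncomputable def bm (q : M.Q) : M.Q × Bool × (Fin M.k → SignType) :=
  if h : (M.move q (some b) (fun _ => false)).Nonempty then h.some else (q, false, 0)

variable {M} {b}

theorem bm_unique (hdet : Deterministic M) (hb : PartiallyBlind M) {q : M.Q}
    {z : Fin M.k → Bool} {m : M.Q × Bool × (Fin M.k → SignType)}
    (hm : m ∈ M.move q (some b) z) : m = bm M b q := by
  rw [hb q _ z (fun _ => false)] at hm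
  have h1 : (M.move q (some b) (fun _ => false)).Nonempty := ⟨m, hm⟩
  have h2 : bm M b q ∈ M.move q (some b) (fun _ => false) := by
    unfold bm
    rw [dif_pos h1]
    exact h1.some_mem
  have key : ∀ m ∈ M.move q (some b) (fun _ => false),
      ∃ C', Leads M ⟨q, [b], fun _ => 1⟩ m C' := by
    intro m hm
    refine ⟨⟨m.1, if m.2.1 then [] else [b], fun i => (1 + (m.2.2 i : ℤ)).toNat⟩, ?_, rfl, ?_, ?_⟩
    · simpa using hm
    · cases m.2.1 <;> simp
    · intro i
      have := cast_abs (m.2.2 i)
      simp only
      push_cast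
      omega
  obtain ⟨C', hC'⟩ := key _ hm
  obtain ⟨C'', hC''⟩ := key _ h2
  exact hdet _ _ _ _ _ hC' hC''

/-- the next state -/
noncomputable def nx (M : Machine A) (b : A) (q : M.Q) : M.Q := (bm M b q).1

/-- the position after `t` steps -/
noncomputable def pos (M : Machine A) (b : A) (q : M.Q) (t : ℕ) : ℕ :=
  ∑ j ∈ Finset.range t, if (bm M b ((nx M b)^[j] q)).2.1 = true then 1 else 0

theorem pos_succ' (q : M.Q) (t : ℕ) :
    pos M b q (t + 1) = (if (bm M b q).2.1 = true then 1 else 0) + pos M b (nx M b q) t := by
  unfold pos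
  rw [Finset.sum_range_succ', add_comm]
  rfl

/-- the changes of counter `i` -/
noncomputable def dl (M : Machine A) (b : A) (q : M.Q) (i : Fin M.k) (j : ℕ) : SignType :=
  (bm M b ((nx M b)^[j] q)).2.2 i

/-- the list of the changes -/
noncomputable def chg (M : Machine A) (b : A) (q : M.Q) (T : ℕ) : List (Fin M.k → SignType) :=
  (List.range T).map fun j => (bm M b ((nx M b)^[j] q)).2.2

theorem chg_succ' (q : M.Q) (T : ℕ) :
    chg M b q (T + 1) = (bm M b q).2.2 :: chg M b (nx M b q) T := by
  unfold chg
  rw [List.range_succ_eq_map, List.map_cons, List.map_map]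
  rfl

theorem sum_dl_succ' (q : M.Q) (i : Fin M.k) (T : ℕ) :
    ∑ j ∈ Finset.range (T + 1), (dl M b q i j : ℤ) =
      ((bm M b q).2.2 i : ℤ) + ∑ j ∈ Finset.range T, (dl M b (nx M b q) i j : ℤ) := by
  rw [Finset.sum_range_succ', add_comm]
  rfl

/-- for `T` steps the trajectory starting in `q` with the counters `v` is possible, and it reads
`m` letters, the last one in the last step -/
def Good (M : Machine A) (b : A) (q : M.Q) (v : Fin M.k → ℕ) (T m : ℕ) : Prop :=
  (∀ j < T, bm M b ((nx M b)^[j] q) ∈ M.move ((nx M b)^[j] q) (some b) (fun _ => false)) ∧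
  (∀ t ≤ T, ∀ i, 0 ≤ (v i : ℤ) + ∑ j ∈ Finset.range t, (dl M b q i j : ℤ)) ∧
  pos M b q T = m ∧ ∀ t < T, pos M b q t < m

theorem Reads.good (hdet : Deterministic M) (hb : PartiallyBlind M) {q q' : M.Q} {u : List A}
    {v v' : Fin M.k → ℕ} {l : List (Fin M.k → SignType)} (h : Reads M q u v l q' v') :
    ∀ m, u = List.replicate m b → ∃ T, Good M b q v T m ∧ q' = (nx M b)^[T] q ∧
      l = chg M b q T ∧ ∀ i, (v' i : ℤ) = v i + ∑ j ∈ Finset.range T, (dl M b q i j : ℤ) := by
  induction h with
  | nil q v =>
    intro m hm
    have hm0 : m = 0 := by simpa using (congrArg List.length hm).symm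
    subst hm0
    refine ⟨0, ⟨by simp, ?_, by simp [pos], by simp⟩, rfl, rfl, by simp⟩
    intro t ht i
    rw [Nat.le_zero.1 ht]
    simp
  | @stay q q1 q' a u v v1 v' δ l h1 h2 h3 ih =>
    intro m hm
    obtain ⟨T, ⟨g1, g2, g3, g4⟩, e1, e2, e3⟩ := ih m hm
    obtain ⟨m, rfl⟩ : ∃ m', m = m' + 1 := by
      rcases m with _ | m
      · simp at hm
      · exact ⟨m, rfl⟩
    rw [List.replicate_succ, List.cons.injEq] at hm
    obtain ⟨rfl, hm⟩ := hm
    have h4 := bm_unique hdet hb h1
    have h5 : nx M a q = q1 := by unfold nx; rw [← h4]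
    refine ⟨T + 1, ⟨?_, ?_, ?_, ?_⟩, ?_, ?_, ?_⟩
    · intro j hj
      rcases j with _ | j
      · rw [hb _ _ _ (zp v)]
        simpa [← h4] using h1
      · rw [Function.iterate_succ_apply, h5]
        exact g1 j (by omega)
    · intro t ht i
      rcases t with _ | t
      · simp
      · rw [sum_dl_succ', h5, ← h4, ← add_assoc, ← h2 i]
        exact g2 t (by omega) i
    · rw [pos_succ', h5, ← h4, g3]
      simp
    · intro t ht
      rcases t with _ | t
      · simp [pos]
      · rw [pos_succ', h5, ← h4]
        simpa using g4 t (by omega)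
    · rw [Function.iterate_succ_apply, h5, e1]
    · rw [chg_succ', h5, ← h4, e2]
    · intro i
      rw [sum_dl_succ', h5, ← h4, ← add_assoc, ← h2 i]
      exact e3 i
  | @adv q q1 q' a u v v1 v' δ l h1 h2 h3 ih =>
    intro m hm
    obtain ⟨m, rfl⟩ : ∃ m', m = m' + 1 := by
      rcases m with _ | m
      · simp at hm
      · exact ⟨m, rfl⟩
    rw [List.replicate_succ, List.cons.injEq] at hm
    obtain ⟨rfl, hm⟩ := hm
    obtain ⟨T, ⟨g1, g2, g3, g4⟩, e1, e2, e3⟩ := ih m hm
    have h4 := bm_unique hdet hb h1
    have h5 : nx M a q = q1 := by unfold nx; rw [← h4]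
    refine ⟨T + 1, ⟨?_, ?_, ?_, ?_⟩, ?_, ?_, ?_⟩
    · intro j hj
      rcases j with _ | j
      · rw [hb _ _ _ (zp v)]
        simpa [← h4] using h1
      · rw [Function.iterate_succ_apply, h5]
        exact g1 j (by omega)
    · intro t ht i
      rcases t with _ | t
      · simp
      · rw [sum_dl_succ', h5, ← h4, ← add_assoc, ← h2 i]
        exact g2 t (by omega) i
    · rw [pos_succ', h5, ← h4, g3]
      simp [add_comm]
    · intro t ht
      rcases t with _ | t
      · simp [pos]
      · rw [pos_succ', h5, ← h4]
        have := g4 t (by omega)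
        simp only [if_true]
        omega
    · rw [Function.iterate_succ_apply, h5, e1]
    · rw [chg_succ', h5, ← h4, e2]
    · intro i
      rw [sum_dl_succ', h5, ← h4, ← add_assoc, ← h2 i]
      exact e3 i

theorem Good.reads (hb : PartiallyBlind M) : ∀ {T m : ℕ} {q : M.Q} {v : Fin M.k → ℕ},
    Good M b q v T m → ∀ v' : Fin M.k → ℕ,
      (∀ i, (v' i : ℤ) = v i + ∑ j ∈ Finset.range T, (dl M b q i j : ℤ)) →
      Reads M q (List.replicate m b) v (chg M b q T) ((nx M b)^[T] q) v' := by
  intro T
  induction T with
  | zero =>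
    intro m q v ⟨_, _, g3, _⟩ v' hv'
    have hm : m = 0 := by simpa [pos] using g3.symm
    have hv : v' = v := by
      funext i
      have := hv' i
      simpa using this
    subst hm hv
    exact .nil _ _
  | succ T ih =>
    intro m q v ⟨g1, g2, g3, g4⟩ v' hv'
    obtain ⟨m, rfl⟩ : ∃ m', m = m' + 1 := by
      rcases m with _ | m
      · exact absurd (g4 0 (by omega)) (by simp)
      · exact ⟨m, rfl⟩
    have h1 : bm M b q ∈ M.move q (some b) (zp v) := by
      rw [hb _ _ _ (fun _ => false)]
      simpa using g1 0 (by omega)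
    have h2 : ∀ i, (((v i : ℤ) + ((bm M b q).2.2 i : ℤ)).toNat : ℤ) =
        v i + ((bm M b q).2.2 i : ℤ) := by
      intro i
      have h3 := g2 1 (by omega) i
      rw [Finset.sum_range_one] at h3
      exact Int.toNat_of_nonneg h3
    have h5 : ∀ i t, (v i : ℤ) + ∑ j ∈ Finset.range (t + 1), (dl M b q i j : ℤ) =
        (((v i : ℤ) + ((bm M b q).2.2 i : ℤ)).toNat : ℤ) +
          ∑ j ∈ Finset.range t, (dl M b (nx M b q) i j : ℤ) := by
      intro i t
      rw [sum_dl_succ', h2, add_assoc]
    rw [List.replicate_succ, chg_succ', Function.iterate_succ_apply]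
    by_cases had : (bm M b q).2.1 = true
    · refine Reads.adv (q1 := nx M b q)
        (v1 := fun i => ((v i : ℤ) + ((bm M b q).2.2 i : ℤ)).toNat) ?_ h2 ?_
      · have : (nx M b q, true, (bm M b q).2.2) = bm M b q := by
          rw [← had]
          rfl
        rw [this]
        exact h1
      · refine ih ⟨?_, ?_, ?_, ?_⟩ v' ?_
        · intro j hj
          have := g1 (j + 1) (by omega)
          rwa [Function.iterate_succ_apply] at this
        · intro t ht i
          rw [← h5]
          exact g2 (t + 1) (by omega) i
        · rw [pos_succ', if_pos had] at g3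
          omega
        · intro t ht
          have := g4 (t + 1) (by omega)
          rw [pos_succ', if_pos had] at this
          omega
        · intro i
          rw [← h5]
          exact hv' i
    · refine Reads.stay (q1 := nx M b q)
        (v1 := fun i => ((v i : ℤ) + ((bm M b q).2.2 i : ℤ)).toNat) ?_ h2 ?_
      · have : (nx M b q, false, (bm M b q).2.2) = bm M b q := by
          have h3 : (bm M b q).2.1 = false := by simpa using had
          rw [← h3]
          rfl
        rw [this]
        exact h1
      · rw [← List.replicate_succ]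
        refine ih ⟨?_, ?_, ?_, ?_⟩ v' ?_
        · intro j hj
          have := g1 (j + 1) (by omega)
          rwa [Function.iterate_succ_apply] at this
        · intro t ht i
          rw [← h5]
          exact g2 (t + 1) (by omega) i
        · rw [pos_succ', if_neg had] at g3
          omega
        · intro t ht
          have := g4 (t + 1) (by omega)
          rw [pos_succ', if_neg had] at this
          omega
        · intro i
          rw [← h5]
          exact hv' i

theorem pos_mono (M : Machine A) (b : A) (q : M.Q) {s t : ℕ} (h : s ≤ t) :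
    pos M b q s ≤ pos M b q t :=
  Finset.sum_le_sum_of_subset (Finset.range_mono h)

theorem pos_le (M : Machine A) (b : A) (q : M.Q) (t : ℕ) : pos M b q t ≤ t := by
  unfold pos
  refine (Finset.sum_le_card_nsmul _ _ 1 fun j _ => ?_).trans (by simp)
  split_ifs <;> omega

theorem pos_succ (M : Machine A) (b : A) (q : M.Q) (t : ℕ) :
    pos M b q (t + 1) = pos M b q t +
      if (bm M b ((nx M b)^[t] q)).2.1 = true then 1 else 0 := by
  unfold pos
  rw [Finset.sum_range_succ]

end Trajectory

/-- `L0` is not accepted with a bounded number of reversals by a deterministic quasi-realtime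
partially blind machine -/
theorem not_blind (c : ℕ) (M : Machine Bool) (hdet : Deterministic M) (hqr : QuasiRealtime M)
    (hb : PartiallyBlind M) : L0 ≠ LR c M := by
  intro hL
  obtain ⟨d, hd⟩ := hqr
  have := M.finQ
  have : Fintype M.Q := Fintype.ofFinite _
  obtain ⟨K, hK⟩ : ∃ K, K = Fintype.card M.Q := ⟨_, rfl⟩
  obtain ⟨n, hn⟩ : ∃ n, n = K + 1 := ⟨_, rfl⟩
  obtain ⟨N0, hN0⟩ : ∃ N0, N0 = n * (d + 1) + K + K + d + c + 1 := ⟨_, rfl⟩
  obtain ⟨m, hm⟩ : ∃ m, m = n + K + N0 * K + 1 := ⟨_, rfl⟩
  have hw : (List.replicate n false ++ List.replicate m true : List Bool) ∈ LR c M := by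
    rw [← hL]
    exact ⟨n, m, by rw [hm]; omega, rfl⟩
  obtain ⟨l, C, hrun, hrem, hfin, hcnt, hrev⟩ := hw
  obtain ⟨la, l', p, v0, rfl, hra, hrun1⟩ := hrun.split (List.replicate n false)
    (List.replicate m true) rfl (by rw [hrem]; exact List.nil_suffix)
  obtain ⟨lb, le, q1, v1, rfl, hrb, hrun2⟩ := hrun1.split (List.replicate m true) [] (by simp)
    (by rw [hrem])
  have hrunA : Run M (init M (List.replicate n false ++ List.replicate m true)) la
      ⟨p, List.replicate m true, v0⟩ := hra.run _
  have hrunB : Run M ⟨p, List.replicate m true, v0⟩ lb ⟨q1, [], v1⟩ := by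
    simpa using hrb.run []
  have hla : la.length ≤ n * (d + 1) := by
    have := (hra.length_le hd (List.replicate m true)
      (List.replicate n false ++ List.replicate m true) (init M _) [] [] (.nil _) (.nil _) rfl).1
    simpa using this
  have hle : le.length ≤ d := hd _ _ _ _ _ (hrunA.append hrunB) hrun2 (by simpa using hrem)
  have hv0 : ∀ i, (v0 i : ℤ) ≤ (n * (d + 1) : ℕ) := by
    intro i
    have h1 := hrunA.cnt_eq i
    have h2 := list_sum_bound la i
    simp only [init] at h1
    omega
  have hv1 : ∀ i, (v1 i : ℤ) ≤ d := by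
    intro i
    have h1 := hrun2.cnt_eq i
    have h2 := list_sum_bound le i
    have h3 := hcnt i
    simp only at h1
    omega
  obtain ⟨T, ⟨g1, g2, g3, g4⟩, e1, e2, e3⟩ := hrb.good hdet hb m rfl
  have hTm : m ≤ T := by
    rw [← g3]
    exact pos_le _ _ _ _
  -- pigeonhole
  obtain ⟨t1, t2, ht12, ht2, hst⟩ : ∃ t1 t2, t1 < t2 ∧ t2 ≤ K ∧
      (nx M true)^[t1] p = (nx M true)^[t2] p := by
    obtain ⟨x, y, hxy, h⟩ := Fintype.exists_ne_map_eq_of_card_lt
      (fun j : Fin (K + 1) => (nx M true)^[j] p) (by rw [← hK, Fintype.card_fin]; omega)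
    rcases lt_or_gt_of_ne (fun h => hxy (Fin.ext h) : (x : ℕ) ≠ y) with h1 | h1
    · exact ⟨x, y, h1, by omega, h⟩
    · exact ⟨y, x, h1, by omega, h.symm⟩
  obtain ⟨ℓ, hℓ⟩ : ∃ ℓ, t2 = t1 + ℓ := ⟨t2 - t1, by omega⟩
  have hper : ∀ j, (nx M true)^[t1 + (j + ℓ)] p = (nx M true)^[t1 + j] p := by
    intro j
    rw [show t1 + (j + ℓ) = j + t2 by omega, show t1 + j = j + t1 by omega,
      Function.iterate_add_apply, Function.iterate_add_apply, hst]
  have hper' : ∀ k j, (nx M true)^[t1 + (j + k * ℓ)] p = (nx M true)^[t1 + j] p := by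
    intro k
    induction k with
    | zero => intro j; simp
    | succ k ih =>
      intro j
      rw [Nat.succ_mul, ← Nat.add_assoc j, hper, ih]
  have hN : N0 ≤ (T - t1) / ℓ := by
    rw [Nat.le_div_iff_mul_le (by omega)]
    have h1 : N0 * ℓ ≤ N0 * K := Nat.mul_le_mul_left _ (by omega)
    omega
  have hchg : ∀ t i, (chg M true p t).map (· i) = (List.range t).map (dl M true p i) := by
    intro t i
    unfold chg
    rw [List.map_map]
    rfl
  have hz : ∀ i j, dl M true p i (t1 + j) = 0 := by
    intro i
    refine key (dl M true p i) t1 ℓ T (by omega) (by omega) (fun j => ?_) (v0 i) _ d (hv0 i)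
      (fun t ht => g2 t ht i) ?_ c ?_ _ rfl ?_ ?_ ?_
    · unfold dl
      rw [hper]
    · rw [← e3 i]
      exact hv1 i
    · have h1 : revs ((la ++ (lb ++ le)).map (· i)) ≤ c :=
        (Finset.single_le_sum (f := fun i => revs ((la ++ (lb ++ le)).map (· i)))
          (fun _ _ => Nat.zero_le _) (Finset.mem_univ i)).trans hrev
      rw [← hchg, ← e2]
      rw [List.map_append, List.map_append] at h1
      have h2 := revs_append (la.map (· i)) (lb.map (· i) ++ le.map (· i))
      have h3 := revs_append (lb.map (· i)) (le.map (· i))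
      omega
    · omega
    · omega
    · omega
  -- the shorter word
  obtain ⟨x, hx⟩ : ∃ x, T = t1 + x + 1 := ⟨T - 1 - t1, by omega⟩
  have hmod : (nx M true)^[t1 + x % ℓ] p = (nx M true)^[t1 + x] p := by
    rw [← hper' (x / ℓ) (x % ℓ), Nat.mod_add_div']
  have hxl : x % ℓ < ℓ := Nat.mod_lt _ (by omega)
  have hxx : x % ℓ ≤ x := Nat.mod_le _ _
  obtain ⟨T', hT'⟩ : ∃ T', T' = t1 + x % ℓ + 1 := ⟨_, rfl⟩
  have hstT : (nx M true)^[T'] p = q1 := by
    rw [e1, hT', hx, Function.iterate_succ_apply', Function.iterate_succ_apply', hmod]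
  have had : (bm M true ((nx M true)^[t1 + x % ℓ] p)).2.1 = true := by
    rw [hmod]
    by_contra hne
    have h1 := pos_succ M true p (t1 + x)
    rw [if_neg hne, ← hx, g3] at h1
    have h2 : pos M true p (t1 + x) < m := g4 (t1 + x) (by omega)
    omega
  have hposT : pos M true p T' = pos M true p (t1 + x % ℓ) + 1 := by
    rw [hT', pos_succ, if_pos had]
  have hgood : Good M true p v0 T' (pos M true p T') := by
    refine ⟨fun j hj => g1 j (by omega), fun t ht i => g2 t (by omega) i, rfl, ?_⟩
    intro t ht
    rw [hposT]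
    have := pos_mono M true p (show t ≤ t1 + x % ℓ by omega)
    omega
  obtain ⟨r, hr⟩ : ∃ r, T = T' + r := ⟨T - T', by omega⟩
  have hz' : ∀ i j, dl M true p i (T' + j) = 0 := by
    intro i j
    rw [hT', show t1 + x % ℓ + 1 + j = t1 + (x % ℓ + 1 + j) by omega]
    exact hz i _
  have hrb' := hgood.reads hb v1 (by
    intro i
    rw [e3 i, hr, Finset.sum_range_add]
    simp [hz'])
  rw [hstT] at hrb'
  have hmem : (List.replicate n false ++ List.replicate (pos M true p T') true : List Bool) ∈
      LR c M := by
    refine ⟨la ++ (chg M true p T' ++ le), C, ?_, hrem, hfin, hcnt, ?_⟩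
    · have h1 : Run M (init M (List.replicate n false ++
          List.replicate (pos M true p T') true)) la
          ⟨p, List.replicate (pos M true p T') true, v0⟩ := hra.run _
      have h2 : Run M ⟨p, List.replicate (pos M true p T') true, v0⟩ (chg M true p T')
          ⟨q1, [], v1⟩ := by simpa using hrb'.run []
      exact h1.append (h2.append hrun2)
    · refine le_trans (Finset.sum_le_sum fun i _ => ?_) hrev
      refine le_of_eq ?_
      unfold revs
      congr 1
      have h1 : (chg M true p T).map (· i) = (chg M true p T').map (· i) ++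
          List.replicate r 0 := by
        rw [hchg, hchg, hr, List.range_add, List.map_append, List.map_map]
        congr 1
        rw [List.eq_replicate_iff]
        refine ⟨by simp, ?_⟩
        intro y hy
        rw [List.mem_map] at hy
        obtain ⟨j, _, rfl⟩ := hy
        exact hz' i j
      have h0 : (List.replicate r (0 : SignType)).filter (· ≠ 0) = [] := by
        rw [List.filter_eq_nil_iff]
        intro y hy
        rw [List.eq_of_mem_replicate hy]
        decide
      rw [e2]
      simp only [List.map_append, List.filter_append]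
      rw [h1, List.filter_append, h0, List.append_nil]
  rw [← hL] at hmem
  obtain ⟨n', m', hnm, h1⟩ := hmem
  have h2 := congrArg (List.count false) h1
  have h3 := congrArg (List.count true) h1
  simp [List.count_replicate] at h2 h3
  have h4 := pos_le M true p T'
  omega

/-! ### A deterministic realtime machine with one counter for `L0` -/

/-- The moves of the machine: it counts the letters `a` and then counts down on the letters `b`, as
long as the counter is positive. -/
def mv0 : Bool → Option Bool → (Fin 1 → Bool) → Set (Bool × Bool × (Fin 1 → SignType))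
  | _, none, _ => ∅
  | false, some false, _ => {(false, true, fun _ => 1)}
  | true, some false, _ => ∅
  | _, some true, z => {(true, true, fun _ => if z 0 = true then 0 else -1)}

/-- A deterministic realtime machine with one counter for `L0`. -/
def M0 : Machine Bool where
  k := 1
  Q := Bool
  finQ := inferInstance
  start := false
  final := Set.univ
  move := mv0

theorem mv0_subsingleton (q : Bool) (s : Option Bool) (z : Fin 1 → Bool) :
    (mv0 q s z).Subsingleton := by
  rcases q with _ | _ <;> rcases s with _ | _ | _ <;> simp [mv0]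

theorem M0_det : Deterministic M0 := fun _ _ _ _ _ h h' => mv0_subsingleton _ _ _ h.1 h'.1

theorem M0_realtime : Realtime M0 := by
  have h1 : ∀ q s z, ∀ m ∈ mv0 q s z, m.2.1 = true := by
    intro q s z m hm
    rcases q with _ | _ <;> rcases s with _ | _ | _ <;> simp [mv0] at hm <;> simp [hm]
  have h2 : ∀ q z, mv0 q none z = ∅ := by
    intro q z
    rcases q with _ | _ <;> simp [mv0]
  exact ⟨h1, h2⟩

theorem Realtime.quasi {M : Machine A} (h : Realtime M) : QuasiRealtime M := by
  have key : ∀ C C' l, Run M C l C' → C'.rem.length + l.length = C.rem.length := by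
    intro C C' l hr
    induction hr with
    | nil => simp
    | cons h1 _ ih =>
      have h2 := h1.2.2.1
      rw [if_pos (h.1 _ _ _ _ h1.1)] at h2
      obtain ⟨a, ha⟩ := h2
      rw [ha, List.length_cons, List.length_cons]
      omega
  refine ⟨0, fun w l l' C C' _ h2 h3 => ?_⟩
  have := key _ _ _ h2
  rw [h3] at this
  omega

theorem M0_run_mem {C C' : Config M0} {l : List (Fin M0.k → SignType)} (h : Run M0 C l C')
    (h1 : C'.rem = []) (h2 : C'.cnt (0 : Fin 1) = 0) :
    (C.st = true → ∃ m, C.cnt (0 : Fin 1) ≤ m ∧ C.rem = List.replicate m true) ∧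
    (C.st = false → ∃ n m, C.cnt (0 : Fin 1) + n ≤ m ∧
      C.rem = List.replicate n false ++ List.replicate m true) := by
  induction h with
  | nil => exact ⟨fun _ => ⟨0, by simp [h2], by simp [h1]⟩, fun _ => ⟨0, 0, by simp [h2],
      by simp [h1]⟩⟩
  | @cons C C1 C2 m l hl hr ih =>
    obtain ⟨ih1, ih2⟩ := ih h1 h2
    obtain ⟨(q : Bool), r, (v : Fin 1 → ℕ)⟩ := C
    obtain ⟨(q1 : Bool), r1, (v1 : Fin 1 → ℕ)⟩ := C1
    obtain ⟨(m1 : Bool), ma, (mδ : Fin 1 → SignType)⟩ := m
    obtain ⟨a1, a2, a3, a4⟩ := hl
    have a5 : (v1 0 : ℤ) = v 0 + (mδ 0 : ℤ) := a4 (0 : Fin 1)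
    have a2 : q1 = m1 := a2
    have a1 : (m1, ma, mδ) ∈ mv0 q r.head? (fun i => decide (v i = 0)) := a1
    have ih1 : q1 = true → ∃ m, v1 0 ≤ m ∧ r1 = List.replicate m true := ih1
    have ih2 : q1 = false → ∃ n m, v1 0 + n ≤ m ∧
      r1 = List.replicate n false ++ List.replicate m true := ih2
    have a3 : if ma = true then ∃ a, r = a :: r1 else r1 = r := a3
    change (q = true → ∃ m, v 0 ≤ m ∧ r = List.replicate m true) ∧
      (q = false → ∃ n m, v 0 + n ≤ m ∧ r = List.replicate n false ++ List.replicate m true)
    clear a4 hr ih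
    rcases r with _ | ⟨b, r⟩
    · rcases q with _ | _ <;> simp [mv0] at a1
    · rcases b with _ | _
      · rcases q with _ | _
        · simp only [List.head?_cons, mv0, Set.mem_singleton_iff, Prod.mk.injEq] at a1
          obtain ⟨rfl, rfl, rfl⟩ := a1
          simp only [if_true, List.cons.injEq] at a3
          obtain ⟨_, _, rfl⟩ := a3
          refine ⟨by simp, fun _ => ?_⟩
          obtain ⟨n, m, h3, h4⟩ := ih2 a2
          refine ⟨n + 1, m, ?_, ?_⟩
          · simp at a5
            omega
          · rw [h4, List.replicate_succ, List.cons_append]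
        · simp [mv0] at a1
      · have a6 : (m1, ma, mδ) = (true, true, fun _ => if (decide (v 0 = 0)) = true then 0 else -1) := by
          rcases q with _ | _ <;> exact a1
        simp only [Prod.mk.injEq] at a6
        obtain ⟨rfl, rfl, rfl⟩ := a6
        simp only [if_true, List.cons.injEq] at a3
        obtain ⟨_, _, rfl⟩ := a3
        obtain ⟨m, h3, h4⟩ := ih1 a2
        have h5 : v 0 ≤ m + 1 := by
          by_cases h6 : v 0 = 0
          · omega
          · simp [h6] at a5
            omega
        refine ⟨fun _ => ⟨m + 1, h5, by rw [h4, List.replicate_succ]⟩, fun _ => ⟨0, m + 1, by omega,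
          by rw [h4, List.replicate_succ]; simp⟩⟩

/-- configurations of `M0` -/
def cf (q : Bool) (r : List Bool) (v : ℕ) : Config M0 := ⟨q, r, fun _ => v⟩

theorem M0_run1 (n : ℕ) : ∀ (v : ℕ) (y : List Bool),
    Run M0 (cf false (List.replicate n false ++ y) v)
      (List.replicate n (fun _ => 1 : Fin 1 → SignType)) (cf false y (v + n)) := by
  induction n with
  | zero => intro v y; exact .nil _
  | succ n ih =>
    intro v y
    have h1 := ih (v + 1) y
    rw [show v + 1 + n = v + (n + 1) by omega] at h1
    have h2 : Leads M0 (cf false (List.replicate (n + 1) false ++ y) v)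
        ((false, true, fun _ => 1) : Bool × Bool × (Fin 1 → SignType))
        (cf false (List.replicate n false ++ y) (v + 1)) := by
      refine ⟨?_, rfl, by simp [List.replicate_succ, cf], by simp [cf]⟩
      change ((false, true, fun _ => 1) : Bool × Bool × (Fin 1 → SignType)) ∈
        mv0 false (List.replicate (n + 1) false ++ y).head? (fun _ => decide (v = 0))
      simp [mv0, List.replicate_succ]
    exact .cons h2 h1

theorem M0_run2 (m : ℕ) : ∀ (v : ℕ) (q : Bool), v ≤ m → ∃ q' : Bool,
    Run M0 (cf q (List.replicate m true) v)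
      (List.replicate v (fun _ => -1 : Fin 1 → SignType) ++
        List.replicate (m - v) (fun _ => 0 : Fin 1 → SignType)) (cf q' [] 0) := by
  induction m with
  | zero =>
    intro v q hv
    obtain rfl : v = 0 := by omega
    exact ⟨q, .nil _⟩
  | succ m ih =>
    intro v q hv
    rcases v with _ | v
    · obtain ⟨q', h⟩ := ih 0 true (by omega)
      refine ⟨q', ?_⟩
      have h1 : Leads M0 (cf q (List.replicate (m + 1) true) 0)
          ((true, true, fun _ => 0) : Bool × Bool × (Fin 1 → SignType))
          (cf true (List.replicate m true) 0) := by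
        refine ⟨?_, rfl, by simp [List.replicate_succ, cf], by simp [cf]⟩
        change ((true, true, fun _ => 0) : Bool × Bool × (Fin 1 → SignType)) ∈
          mv0 q (List.replicate (m + 1) true).head? (fun _ => decide (0 = 0))
        rcases q with _ | _ <;> simp [mv0, List.replicate_succ]
      have := Run.cons h1 h
      rw [show m - 0 = m by omega, List.replicate_zero, List.nil_append] at this
      rw [show m + 1 - 0 = m + 1 by omega, List.replicate_zero, List.nil_append,
        List.replicate_succ (n := m) (a := (fun _ => 0 : Fin 1 → SignType))]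
      exact this
    · obtain ⟨q', h⟩ := ih v true (by omega)
      refine ⟨q', ?_⟩
      have h1 : Leads M0 (cf q (List.replicate (m + 1) true) (v + 1))
          ((true, true, fun _ => -1) : Bool × Bool × (Fin 1 → SignType))
          (cf true (List.replicate m true) v) := by
        refine ⟨?_, rfl, by simp [List.replicate_succ, cf], by simp [cf]⟩
        change ((true, true, fun _ => -1) : Bool × Bool × (Fin 1 → SignType)) ∈
          mv0 q (List.replicate (m + 1) true).head? (fun _ => decide (v + 1 = 0))
        rcases q with _ | _ <;> simp [mv0, List.replicate_succ]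
      have := Run.cons h1 h
      rw [show m + 1 - (v + 1) = m - v by omega, List.replicate_succ (n := v), List.cons_append]
      exact this

theorem changes_replicate (n : ℕ) (a : SignType) : changes (List.replicate n a) = 0 := by
  induction n with
  | zero => rfl
  | succ n ih =>
    rcases n with _ | n
    · rfl
    · rw [List.replicate_succ, List.replicate_succ, changes, if_pos rfl, ← List.replicate_succ, ih]

theorem changes_two (n m : ℕ) (a b : SignType) :
    changes (List.replicate n a ++ List.replicate m b) ≤ 1 := by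
  induction n with
  | zero => rw [List.replicate_zero, List.nil_append, changes_replicate]; omega
  | succ n ih =>
    rcases n with _ | n
    · rcases m with _ | m
      · simp [changes]
      · rw [List.replicate_succ, List.replicate_succ, List.replicate_zero, List.cons_append,
          List.nil_append, changes, ← List.replicate_succ, changes_replicate]
        split_ifs <;> omega
    · rw [List.replicate_succ, List.replicate_succ, List.cons_append, List.cons_append, changes,
        if_pos rfl, ← List.cons_append, ← List.replicate_succ]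
      omega

theorem M0_LR (c : ℕ) (hc : 1 ≤ c) : L0 = LR c M0 := by
  ext w
  constructor
  · rintro ⟨n, m, hnm, rfl⟩
    obtain ⟨q', h⟩ := M0_run2 m n false hnm
    have h1 := M0_run1 n 0 (List.replicate m true)
    rw [Nat.zero_add] at h1
    refine ⟨_, _, h1.append h, rfl, Set.mem_univ _, fun _ => rfl, ?_⟩
    have h2 : ∀ i : Fin 1, revs (((List.replicate n fun _ => (1 : SignType)) ++
        ((List.replicate n fun _ => (-1 : SignType)) ++
          (List.replicate (m - n) fun _ => (0 : SignType)))).map
            fun x : Fin 1 → SignType => x i) ≤ 1 := by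
      intro i
      unfold revs
      simp only [List.map_append, List.map_replicate, List.filter_append, List.filter_replicate]
      simpa using changes_two n n 1 (-1)
    change ∑ i : Fin 1, _ ≤ c
    rw [Fin.sum_univ_one]
    exact (h2 0).trans hc
  · rintro ⟨l, C, h1, h2, h3, h4, h5⟩
    obtain ⟨n, m, h6, h7⟩ := (M0_run_mem h1 h2 (h4 _)).2 rfl
    exact ⟨n, m, by simpa [init] using h6, h7⟩

/-- **The answer to the question is no**, for every `c ≥ 1`. The language `{a^n b^m : n ≤ m}` is
accepted with at most one reversal by a deterministic realtime machine with one counter, and it is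
in no class `𝓛_{Rc'}(QR-DPBLIND)`; hence `𝓛_{Rc}(QR-DPBLIND)` is a proper subclass of
`𝓛_{Rc}(QR-DCOUNTER)` for every `c ≥ 1`. -/
theorem result :
    (∃ M : Machine Bool, Deterministic M ∧ Realtime M ∧ M.k = 1 ∧ ∀ c, 1 ≤ c → L0 = LR c M) ∧
    (∀ c, L0 ∉ QRDPBlind Bool c) ∧
    (∀ c, 1 ≤ c → QRDPBlind Bool c ⊂ QRDCounter Bool c) ∧
    ¬ ∀ (c : ℕ) (A : Type) [Finite A], QRDPBlind A c = QRDCounter A c := by
  have h1 : ∀ c, L0 ∉ QRDPBlind Bool c := by
    rintro c ⟨M, h1, h2, h3, h4⟩
    exact not_blind c M h1 h2 h3 h4
  have h2 : ∀ c, 1 ≤ c → L0 ∈ QRDCounter Bool c := fun c hc =>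
    ⟨M0, M0_det, M0_realtime.quasi, M0_LR c hc⟩
  refine ⟨⟨M0, M0_det, M0_realtime, rfl, M0_LR⟩, h1, ?_, ?_⟩
  · intro c hc
    rw [Set.ssubset_iff_of_subset]
    · exact ⟨L0, h2 c hc, h1 c⟩
    · rintro L ⟨M, h3, h4, _, h5⟩
      exact ⟨M, h3, h4, h5⟩
  · intro h
    exact h1 1 (by rw [h 1 Bool]; exact h2 1 le_rfl)

end Pool.Agent.Results.MP_24384b_lc.BlindCounters
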